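import Pool.Agent.Lib.BcrU.DefsG

/-!
The hypergraphic relaxation: definitions.
-/

namespace BcrH

open Finset Bcr3

variable {V : Type} [DecidableEq V]

/-- number of parts of `π` which meet `K`, minus one -/
def rkp {R : Finset V} (π : Finpartition R) (K : Finset V) : ℕ :=
  (π.parts.filter fun P => (P ∩ K).Nonempty).card - 1

/-- value of the hypergraphic (partition) relaxation: sets `K` of terminals have the price of a
minimum Steiner tree for `K`; every partition of the terminals has to be crossed -/
noncomputable def HYP [Fintype V] (G : SimpleGraph V) (c : Sym2 V → ℝ) (R : Finset V) : ℝ :=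
  sInf {w | ∃ x : Finset V → ℝ, (∀ K, 0 ≤ x K) ∧
    (∀ π : Finpartition R, (π.parts.card : ℝ) - 1 ≤ ∑ K ∈ R.powerset, x K * (rkp π K : ℝ)) ∧
    w = ∑ K ∈ R.powerset, x K * OPT G c K}

end BcrH
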