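import Pool.Agent.Lib.BcrH.HDef

/-!
MODULE HSub (120 lines). Intersecting submodularity of `rkp`.

`rkp π K + 1 = #{P ∈ π.parts : P ∩ K ≠ ∅}` if `K ⊆ R` is nonempty (an element of `K` lies in a part: `Finpartition.exists_mem`).
* `rkp_sub`: `#{P : P meets A ∪ B} + #{P : P meets A ∩ B} ≤ #{P : P meets A} + #{P : P meets B}` (the first set is the union of
  the two sets on the right, the second is contained in their intersection: `Finset.card_union_add_card_inter`), all four
  numbers are `≥ 1` as `A ∩ B` is a nonempty subset of `R`.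
* `rkp_singleton`: exactly one part contains `v` (`Finpartition.existsUnique_mem`), `rkp = 0`.
* `rkp_top`: every part meets `R`: `rkp π R = π.parts.card - 1`.
* `rkp_image`: `rkp π K ≤ π.parts.card - 1` (natural subtraction; `card_filter_le`).
-/

namespace BcrH

open Finset

variable {V : Type} [DecidableEq V] {R : Finset V}

private theorem hsub_pos (π : Finpartition R) {K : Finset V} (hK : K ⊆ R) (h : K.Nonempty) :
    1 ≤ (π.parts.filter fun P => (P ∩ K).Nonempty).card := by
  obtain ⟨v, hv⟩ := h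
  obtain ⟨P, hP, hvP⟩ := π.exists_mem (hK hv)
  refine Finset.card_pos.2 ⟨P, ?_⟩
  rw [mem_filter]
  exact ⟨hP, ⟨v, mem_inter.2 ⟨hvP, hv⟩⟩⟩

theorem rkp_sub (π : Finpartition R) {A B : Finset V} (hA : A ⊆ R) (hB : B ⊆ R)
    (h : (A ∩ B).Nonempty) : rkp π (A ∪ B) + rkp π (A ∩ B) ≤ rkp π A + rkp π B := by
  have hA0 : A.Nonempty := h.mono inter_subset_left
  have hB0 : B.Nonempty := h.mono inter_subset_right
  have p1 := hsub_pos π hA hA0
  have p2 := hsub_pos π hB hB0
  have p3 := hsub_pos π (union_subset hA hB) (hA0.mono subset_union_left)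
  have p4 := hsub_pos π (inter_subset_left.trans hA) h
  have e1 : (π.parts.filter fun P => (P ∩ (A ∪ B)).Nonempty) =
      (π.parts.filter fun P => (P ∩ A).Nonempty) ∪ (π.parts.filter fun P => (P ∩ B).Nonempty) := by
    ext P
    rw [mem_union, mem_filter, mem_filter, mem_filter, inter_union_distrib_left,
      union_nonempty]
    tauto
  have e2 : (π.parts.filter fun P => (P ∩ (A ∩ B)).Nonempty) ⊆
      (π.parts.filter fun P => (P ∩ A).Nonempty) ∩ (π.parts.filter fun P => (P ∩ B).Nonempty) := by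
    intro P hP
    rw [mem_filter] at hP
    obtain ⟨hP1, v, hv⟩ := hP
    rw [mem_inter, mem_inter] at hv
    rw [mem_inter, mem_filter, mem_filter]
    exact ⟨⟨hP1, v, mem_inter.2 ⟨hv.1, hv.2.1⟩⟩, ⟨hP1, v, mem_inter.2 ⟨hv.1, hv.2.2⟩⟩⟩
  have e3 := card_le_card e2
  have e4 := card_union_add_card_inter (π.parts.filter fun P => (P ∩ A).Nonempty)
    (π.parts.filter fun P => (P ∩ B).Nonempty)
  rw [← e1] at e4
  unfold rkp
  omega

theorem rkp_singleton (π : Finpartition R) {v : V} (hv : v ∈ R) : rkp π {v} = 0 := by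
  obtain ⟨P, ⟨hP, hvP⟩, hu⟩ := π.existsUnique_mem hv
  have e : (π.parts.filter fun Q => (Q ∩ {v}).Nonempty) ⊆ {P} := by
    intro Q hQ
    rw [mem_filter] at hQ
    obtain ⟨hQ1, w, hw⟩ := hQ
    rw [mem_inter, mem_singleton] at hw
    rw [mem_singleton]
    apply hu Q
    refine ⟨hQ1, ?_⟩
    rw [← hw.2]
    exact hw.1
  have h1 := card_le_card e
  rw [card_singleton] at h1
  unfold rkp
  omega

theorem rkp_top (π : Finpartition R) : rkp π R = π.parts.card - 1 := by
  unfold rkp
  rw [filter_true_of_mem]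
  intro P hP
  have h1 : P ⊆ R := π.le hP
  rw [inter_eq_left.2 h1]
  exact π.nonempty_of_mem_parts hP

theorem rkp_le (π : Finpartition R) (K : Finset V) : rkp π K ≤ π.parts.card - 1 := by
  unfold rkp
  exact Nat.sub_le_sub_right (card_filter_le _ _) 1

theorem parts_pos (π : Finpartition R) (hR : R.Nonempty) : 1 ≤ π.parts.card := by
  obtain ⟨v, hv⟩ := hR
  obtain ⟨P, hP, _⟩ := π.exists_mem hv
  exact Finset.card_pos.2 ⟨P, hP⟩

end BcrH
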