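import Pool.Agent.Lib.BcrU.LUlt

/-!
MODULE HUnc (250 lines). Uncrossing: an intersecting submodular function dominates an ultrametric with the same value on the
whole set (up to rounding).

`mu_ext`: for `K ≤ K2` the additional levels `k ≥ K` have `kap lev k S = 1` (`kap_one`, `bound`).

`unc` by induction on `Fintype.card ι` (generalising the type `ι`, `f`, `τ`; for example: `∀ n, ∀ (ι : Type) [..], card ι = n → ..`).
* `card ι = 1`: `lev = 0`, `K = 0`; `f univ = f {i} = 0`, `mu = 0`.
* `card ι ≥ 2`: let `t1 = min {f A / (A.card - 1) : 2 ≤ A.card}` (finite minimum), attained at `Q`: `f Q = t1 (Q.card - 1)`,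
  and `t1 (A.card - 1) ≤ f A` for all nonempty `A` (also for singletons). `ε τ ≤ t1`. Let `k1 = ⌊t1/ε⌋₊`, so `τ ≤ k1`, `ε k1 ≤ t1 < ε (k1 + 1)`.
  Choose `z ∈ Q`; `ι' = {i // i ∉ Q ∨ i = z}` (fewer elements as `Q.card ≥ 2`), `p : ι → ι'` maps `Q` to `z` and fixes the rest.
  For `A' ⊆ ι'` let `pre A' = {i | p i ∈ A'}` and `f' A' = f (pre A') - (if z ∈ A' then f Q else 0)`. Note `pre A' ⊇ Q` if `z ∈ A'`, and
  `pre A'` is disjoint from `Q` otherwise; `pre` commutes with unions and intersections.
  `f' {i'} = 0`: clear (`pre {z} = Q`). Intersecting submodular: if both sets contain `z` or none does, this is `hsub` for the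
  preimages; if only `A'` contains `z`, then `(A' ∩ B')` does not contain `z`, `A' ∪ B'` does: the same terms `f Q` on both sides.
  Lower bound: `ε k1 (A'.card - 1) ≤ f' A'`: if `z ∈ A'`: `f (pre A') ≥ t1 (A'.card - 1 + Q.card - 1)` and `f Q = t1 (Q.card - 1)`.
  The induction hypothesis with `τ := k1` gives `K'`, `lev'` with `k1 ≤ lev' i j` for `i ≠ j`.
  Put `lev i j = if i ∈ Q ∧ j ∈ Q then (if i = j then 0 else k1) else lev' (p i) (p j)`, `K = max K' k1`. `Ult K lev`: cases
  (levels between `Q` and outside are `≥ k1`).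
  For nonempty `A`: if `A ∩ Q = ∅`: `kap lev k A = kap lev' k (A.image p)`; else for `k < k1`: `kap lev k A = A.card` and
  `kap lev' k (A.image p) = A.card - (A ∩ Q).card + 1`, for `k ≥ k1` both are equal; so
  `mu lev A = ε k1 ((A ∩ Q).card - 1) + mu lev' (A.image p)` and with the hypothesis, `pre (A.image p) = A ∪ Q` and `hsub`:
  `≤ t1 ((A ∩ Q).card - 1) + f (A ∪ Q) - f Q ≤ t1 ((A ∩ Q).card - 1) + f A - f (A ∩ Q) ≤ f A`.
  For `A = univ`: `mu lev univ = ε k1 (Q.card - 1) + mu lev' univ ≥ (t1 - ε)(Q.card - 1) + f univ - f Q - ε (card ι' - 1)`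
  `= f univ - ε (card ι - 1)`.
-/

namespace BcrH

open Finset BcrU

theorem mu_ext {ι : Type} [Fintype ι] [DecidableEq ι] {lev : ι → ι → ℕ} {K K2 : ℕ}
    (hU : Ult K lev) (hK : K ≤ K2) (ε : ℝ) {S : Finset ι} (hS : S.Nonempty) :
    mu lev K2 ε S = mu lev K ε S := by
  unfold mu
  congr 1
  symm
  refine Finset.sum_subset (Finset.range_subset_range.mpr hK) fun k _ hk => ?_
  have hk' : K ≤ k := by simpa using hk
  rw [kap_one hU hS fun i _ j _ => (hU.bound i j).trans hk']
  norm_num

private theorem HUnc_card_le {α β γ : Type} [DecidableEq β] [DecidableEq γ] (A : Finset α)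
    (g : α → β) (h : α → γ) (H : ∀ i ∈ A, ∀ j ∈ A, g i = g j → h i = h j) :
    (A.image h).card ≤ (A.image g).card := by
  classical
  rcases A.eq_empty_or_nonempty with rfl | ⟨a₀, _⟩
  · simp
  have : Nonempty α := ⟨a₀⟩
  have hch : ∀ b ∈ A.image h, ∃ i ∈ A, h i = b := fun b hb => by
    simpa [Finset.mem_image] using hb
  choose! s hs1 hs2 using hch
  refine Finset.card_le_card_of_injOn (fun b => g (s b)) ?_ ?_
  · intro b hb
    exact Finset.mem_coe.mpr (Finset.mem_image_of_mem g (hs1 b (Finset.mem_coe.mp hb)))
  · intro b hb b' hb' hbb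
    have hb1 := Finset.mem_coe.mp hb
    have hb2 := Finset.mem_coe.mp hb'
    have := H _ (hs1 b hb1) _ (hs1 b' hb2) hbb
    rw [hs2 b hb1, hs2 b' hb2] at this
    exact this

private theorem HUnc_card {ι ι' : Type} [DecidableEq ι] [DecidableEq ι'] (p : ι → ι')
    {Q : Finset ι} (hpQ : ∀ i j, p i = p j ↔ i = j ∨ (i ∈ Q ∧ j ∈ Q)) (A : Finset ι) :
    (A.card : ℝ) = ((A.image p).card : ℝ) +
      (if (A ∩ Q).Nonempty then ((A ∩ Q).card : ℝ) - 1 else 0) := by
  have h1 : A.card = (A \ Q).card + (A ∩ Q).card := (Finset.card_sdiff_add_card_inter A Q).symm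
  have h2 : A.image p = (A \ Q).image p ∪ (A ∩ Q).image p := by
    rw [← Finset.image_union, Finset.sdiff_union_inter]
  have h3 : Disjoint ((A \ Q).image p) ((A ∩ Q).image p) := by
    rw [Finset.disjoint_left]
    intro b hb hb'
    obtain ⟨i, hi, rfl⟩ := Finset.mem_image.mp hb
    obtain ⟨j, hj, hij⟩ := Finset.mem_image.mp hb'
    have hi' := (Finset.mem_sdiff.mp hi).2
    have hj' := (Finset.mem_inter.mp hj).2
    rcases (hpQ j i).mp hij with rfl | h
    · exact hi' hj'
    · exact hi' h.2
  have h4 : ((A \ Q).image p).card = (A \ Q).card := by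
    refine Finset.card_image_of_injOn ?_
    intro i hi j hj hij
    have hi' := (Finset.mem_sdiff.mp (Finset.mem_coe.mp hi)).2
    rcases (hpQ i j).mp hij with h | h
    · exact h
    · exact absurd h.1 hi'
  have h5 : (A.image p).card = (A \ Q).card + ((A ∩ Q).image p).card := by
    rw [h2, Finset.card_union_of_disjoint h3, h4]
  split_ifs with hne
  · have h6 : ((A ∩ Q).image p).card = 1 := by
      obtain ⟨y, hy⟩ := hne
      rw [Finset.card_eq_one]
      refine ⟨p y, ?_⟩
      ext b
      rw [Finset.mem_image, Finset.mem_singleton]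
      constructor
      · rintro ⟨i, hi, rfl⟩
        exact (hpQ i y).mpr (Or.inr ⟨(Finset.mem_inter.mp hi).2, (Finset.mem_inter.mp hy).2⟩)
      · rintro rfl
        exact ⟨y, hy, rfl⟩
    rw [h5, h6, h1]
    push_cast
    ring
  · have h6 : A ∩ Q = ∅ := Finset.not_nonempty_iff_eq_empty.mp hne
    rw [h5, h1, h6]
    simp

private theorem HUnc_main (ε : ℝ) (hε : 0 < ε) : ∀ n : ℕ, ∀ (ι : Type) [Fintype ι]
    [DecidableEq ι] [Nonempty ι], Fintype.card ι = n → ∀ (f : Finset ι → ℝ),
    (∀ i, f {i} = 0) →
    (∀ A B : Finset ι, (A ∩ B).Nonempty → f (A ∪ B) + f (A ∩ B) ≤ f A + f B) →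
    ∀ τ : ℕ, (∀ A : Finset ι, A.Nonempty → ε * τ * ((A.card : ℝ) - 1) ≤ f A) →
    ∃ (K : ℕ) (lev : ι → ι → ℕ), Ult K lev ∧ (∀ i j, i ≠ j → τ ≤ lev i j) ∧
      (∀ A : Finset ι, A.Nonempty → mu lev K ε A ≤ f A) ∧
      f univ - ε * ((Fintype.card ι : ℝ) - 1) ≤ mu lev K ε univ := by
  intro n
  induction n using Nat.strong_induction_on with
  | _ n ih =>
  intro ι _ _ _ hn f h0 hsub τ hτ
  rcases Nat.lt_or_ge (Fintype.card ι) 2 with hc | hc
  · -- one point
    have hc1 : Fintype.card ι = 1 := by
      have := Fintype.card_pos (α := ι)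
      omega
    obtain ⟨i₀, hi₀⟩ := Fintype.card_eq_one_iff.mp hc1
    refine ⟨0, fun _ _ => 0, ⟨fun _ => rfl, fun _ _ => rfl, fun _ _ _ => Nat.zero_le _,
      fun _ _ => le_rfl⟩, ?_, ?_, ?_⟩
    · intro i j hij
      exact absurd ((hi₀ i).trans (hi₀ j).symm) hij
    · intro A hA
      have h1 : mu (fun _ _ => 0) 0 ε A = 0 := by simp [mu]
      rw [h1]
      refine le_trans ?_ (hτ A hA)
      have : (1 : ℝ) ≤ A.card := by exact_mod_cast Finset.card_pos.mpr hA
      have h2 : (0 : ℝ) ≤ ε * τ := by positivity
      exact mul_nonneg h2 (by linarith)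
    · have h1 : mu (fun _ _ => 0) 0 ε (univ : Finset ι) = 0 := by simp [mu]
      have h2 : (univ : Finset ι) = {i₀} := by
        ext i
        simp [hi₀ i]
      rw [h1, hc1, h2, h0]
      simp
  · -- at least two points
    have hfne : ((univ : Finset (Finset ι)).filter fun A => 2 ≤ A.card).Nonempty :=
      ⟨univ, by simp [Finset.card_univ, hc]⟩
    obtain ⟨Q, hQ, hQmin⟩ := Finset.exists_min_image _
      (fun A : Finset ι => f A / ((A.card : ℝ) - 1)) hfne
    have hQ2 : 2 ≤ Q.card := by simpa using hQ
    have hQr : (2 : ℝ) ≤ (Q.card : ℝ) := by exact_mod_cast hQ2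
    have hQ1 : (0 : ℝ) < (Q.card : ℝ) - 1 := by linarith
    set t1 : ℝ := f Q / ((Q.card : ℝ) - 1) with ht1
    have hfQ : f Q = t1 * ((Q.card : ℝ) - 1) := by
      rw [ht1, div_mul_cancel₀ _ hQ1.ne']
    have hlow : ∀ A : Finset ι, A.Nonempty → t1 * ((A.card : ℝ) - 1) ≤ f A := by
      intro A hA
      have hA1 : 1 ≤ A.card := Finset.card_pos.mpr hA
      rcases Nat.lt_or_ge A.card 2 with hA2 | hA2
      · have : A.card = 1 := by omega
        obtain ⟨i, rfl⟩ := Finset.card_eq_one.mp this
        rw [h0]
        simp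
      · have hAr : (2 : ℝ) ≤ (A.card : ℝ) := by exact_mod_cast hA2
        have hm := hQmin A (by simpa using hA2)
        have hm' : t1 ≤ f A / ((A.card : ℝ) - 1) := hm
        exact (le_div_iff₀ (by linarith)).mp hm'
    have hετ : ε * τ ≤ t1 := by
      have h := hτ Q (Finset.card_pos.mp (by omega))
      rw [hfQ] at h
      exact le_of_mul_le_mul_right h hQ1
    have ht1pos : 0 ≤ t1 := le_trans (by positivity) hετ
    set k1 : ℕ := ⌊t1 / ε⌋₊ with hk1
    have hk1a : ε * (k1 : ℝ) ≤ t1 := by
      have h := Nat.floor_le (div_nonneg ht1pos hε.le)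
      have h' := mul_le_mul_of_nonneg_left h hε.le
      rwa [mul_div_cancel₀ _ hε.ne'] at h'
    have hk1b : t1 ≤ ε * ((k1 : ℝ) + 1) := by
      have h := (Nat.lt_floor_add_one (t1 / ε)).le
      have h' := mul_le_mul_of_nonneg_left h hε.le
      rwa [mul_div_cancel₀ _ hε.ne'] at h'
    have hτk : τ ≤ k1 := Nat.le_floor (by
      rw [le_div_iff₀ hε]
      linarith)
    obtain ⟨z, hz⟩ := Finset.card_pos.mp (show 0 < Q.card by omega)
    -- the quotient
    let ι' : Type := {i : ι // i ∉ Q ∨ i = z}
    let z' : ι' := ⟨z, Or.inr rfl⟩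
    let p : ι → ι' := fun i => if h : i ∈ Q then z' else ⟨i, Or.inl h⟩
    have : Nonempty ι' := ⟨z'⟩
    have hpin : ∀ i ∈ Q, p i = z' := fun i hi => dif_pos hi
    have hpout : ∀ i, ∀ h : i ∉ Q, p i = ⟨i, Or.inl h⟩ := fun i hi => dif_neg hi
    have hpz : p z = z' := hpin z hz
    have hpQ : ∀ i j, p i = p j ↔ i = j ∨ (i ∈ Q ∧ j ∈ Q) := by
      intro i j
      by_cases hi : i ∈ Q <;> by_cases hj : j ∈ Q
      · rw [hpin i hi, hpin j hj]
        simp [hi, hj]
      · rw [hpin i hi, hpout j hj]
        constructor
        · intro h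
          have : z = j := congrArg Subtype.val h
          exact absurd (this ▸ hz) hj
        · rintro (h | h)
          · exact absurd (h ▸ hi) hj
          · exact absurd h.2 hj
      · rw [hpout i hi, hpin j hj]
        constructor
        · intro h
          have : i = z := congrArg Subtype.val h
          exact absurd (this ▸ hz) hi
        · rintro (h | h)
          · exact absurd (h ▸ hj) hi
          · exact absurd h.1 hi
      · rw [hpout i hi, hpout j hj]
        constructor
        · intro h
          exact Or.inl (congrArg Subtype.val h)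
        · rintro (h | h)
          · subst h; rfl
          · exact absurd h.1 hi
    have hps : ∀ x : ι', p x.1 = x := by
      intro x
      by_cases hx : x.1 ∈ Q
      · rw [hpin _ hx]
        rcases x.2 with h | h
        · exact absurd hx h
        · exact Subtype.ext h.symm
      · rw [hpout _ hx]
    have hsurj : Function.Surjective p := fun x => ⟨x.1, hps x⟩
    have hpz' : ∀ i, p i = z' ↔ i ∈ Q := by
      intro i
      rw [← hpz, hpQ]
      constructor
      · rintro (rfl | h)
        · exact hz
        · exact h.1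
      · intro h
        exact Or.inr ⟨h, hz⟩
    have hcard' : Fintype.card ι' < Fintype.card ι := by
      obtain ⟨y, hy, hyz⟩ := Finset.exists_mem_ne (by omega : 1 < Q.card) z
      refine Fintype.card_subtype_lt (x := y) ?_
      rintro (h | h)
      · exact h hy
      · exact hyz h
    -- preimages
    let pre : Finset ι' → Finset ι := fun A' => univ.filter fun i => p i ∈ A'
    have hmem : ∀ (A' : Finset ι') (i : ι), i ∈ pre A' ↔ p i ∈ A' := by
      intro A' i
      simp [pre]
    have hpreim : ∀ A' : Finset ι', (pre A').image p = A' := by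
      intro A'
      ext x
      rw [Finset.mem_image]
      constructor
      · rintro ⟨i, hi, rfl⟩
        exact (hmem A' i).mp hi
      · intro hx
        exact ⟨x.1, (hmem A' _).mpr (by rw [hps]; exact hx), hps x⟩
    have hpreU : ∀ A' B' : Finset ι', pre (A' ∪ B') = pre A' ∪ pre B' := by
      intro A' B'
      ext i
      simp [pre]
    have hpreI : ∀ A' B' : Finset ι', pre (A' ∩ B') = pre A' ∩ pre B' := by
      intro A' B'
      ext i
      simp [pre]
    have hprene : ∀ A' : Finset ι', A'.Nonempty → (pre A').Nonempty := by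
      rintro A' ⟨x, hx⟩
      exact ⟨x.1, (hmem A' _).mpr (by rw [hps]; exact hx)⟩
    have hpreQ : ∀ A' : Finset ι', z' ∈ A' → pre A' ∩ Q = Q := by
      intro A' hz'
      refine Finset.inter_eq_right.mpr fun i hi => (hmem A' i).mpr ?_
      rw [hpin i hi]
      exact hz'
    have hpreQ' : ∀ A' : Finset ι', z' ∉ A' → pre A' ∩ Q = ∅ := by
      intro A' hz'
      rw [Finset.eq_empty_iff_forall_notMem]
      intro i hi
      have h1 := (hmem A' i).mp (Finset.mem_inter.mp hi).1
      rw [hpin i (Finset.mem_inter.mp hi).2] at h1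
      exact hz' h1
    let f' : Finset ι' → ℝ := fun A' => f (pre A') - (if z' ∈ A' then f Q else 0)
    have h0' : ∀ x, f' {x} = 0 := by
      intro x
      by_cases hx : x = z'
      · have h1 : pre {x} = Q := by
          ext i
          rw [hmem, Finset.mem_singleton, hx, hpz']
        have h2 : z' ∈ ({x} : Finset ι') := by rw [hx]; exact Finset.mem_singleton_self _
        show f (pre {x}) - (if z' ∈ ({x} : Finset ι') then f Q else 0) = 0
        rw [if_pos h2, h1, sub_self]
      · have h1 : pre {x} = {x.1} := by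
          ext i
          rw [hmem, Finset.mem_singleton, Finset.mem_singleton]
          constructor
          · intro h
            rw [← hps x, hpQ] at h
            rcases h with h | h
            · exact h
            · exfalso
              apply hx
              rw [← hps x]
              exact (hpz' _).mpr h.2
          · intro h
            rw [h, hps]
        have h2 : z' ∉ ({x} : Finset ι') := by
          rw [Finset.mem_singleton]
          exact fun h => hx h.symm
        show f (pre {x}) - (if z' ∈ ({x} : Finset ι') then f Q else 0) = 0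
        rw [if_neg h2, h1, h0, sub_zero]
    have hsub' : ∀ A B : Finset ι', (A ∩ B).Nonempty →
        f' (A ∪ B) + f' (A ∩ B) ≤ f' A + f' B := by
      intro A B hAB
      have h := hsub (pre A) (pre B) (by rw [← hpreI]; exact hprene _ hAB)
      rw [← hpreU, ← hpreI] at h
      show (f (pre (A ∪ B)) - (if z' ∈ A ∪ B then f Q else 0)) +
        (f (pre (A ∩ B)) - (if z' ∈ A ∩ B then f Q else 0)) ≤
        (f (pre A) - (if z' ∈ A then f Q else 0)) + (f (pre B) - (if z' ∈ B then f Q else 0))
      by_cases hA : z' ∈ A <;> by_cases hB : z' ∈ B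
      · rw [if_pos (Finset.mem_union_left _ hA), if_pos (Finset.mem_inter.mpr ⟨hA, hB⟩),
          if_pos hA, if_pos hB]
        linarith
      · rw [if_pos (Finset.mem_union_left _ hA), if_neg (fun h => hB (Finset.mem_inter.mp h).2),
          if_pos hA, if_neg hB]
        linarith
      · rw [if_pos (Finset.mem_union_right _ hB), if_neg (fun h => hA (Finset.mem_inter.mp h).1),
          if_neg hA, if_pos hB]
        linarith
      · rw [if_neg (fun h => (Finset.mem_union.mp h).elim hA hB),
          if_neg (fun h => hA (Finset.mem_inter.mp h).1), if_neg hA, if_neg hB]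
        linarith
    have hτ' : ∀ A : Finset ι', A.Nonempty → ε * k1 * ((A.card : ℝ) - 1) ≤ f' A := by
      intro A hA
      have hA1 : (1 : ℝ) ≤ A.card := by exact_mod_cast Finset.card_pos.mpr hA
      have h1 := hlow (pre A) (hprene A hA)
      have h2 := HUnc_card p hpQ (pre A)
      rw [hpreim] at h2
      have h3 : ε * k1 * ((A.card : ℝ) - 1) ≤ t1 * ((A.card : ℝ) - 1) :=
        mul_le_mul_of_nonneg_right hk1a (by linarith)
      show ε * k1 * ((A.card : ℝ) - 1) ≤ f (pre A) - (if z' ∈ A then f Q else 0)
      by_cases hzA : z' ∈ A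
      · rw [hpreQ A hzA, if_pos ⟨z, hz⟩] at h2
        rw [if_pos hzA, hfQ]
        rw [h2] at h1
        nlinarith
      · rw [hpreQ' A hzA, if_neg (by simp)] at h2
        rw [if_neg hzA]
        rw [h2] at h1
        nlinarith
    obtain ⟨K', lev', hU', hk1', hmu', hun'⟩ :=
      ih (Fintype.card ι') (by rw [← hn]; exact hcard') ι' rfl f' h0' hsub' k1 hτ'
    -- the levels
    let lev : ι → ι → ℕ := fun i j => if i = j then 0 else max k1 (lev' (p i) (p j))
    have hlev0 : ∀ i, lev i i = 0 := fun i => if_pos rfl
    have hlev1 : ∀ i j, i ≠ j → lev i j = max k1 (lev' (p i) (p j)) := fun i j h => if_neg h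
    have hU : Ult (max K' k1) lev := by
      refine ⟨hlev0, ?_, ?_, ?_⟩
      · intro i j
        by_cases h : i = j
        · subst h; rfl
        · rw [hlev1 i j h, hlev1 j i (Ne.symm h), hU'.symm]
      · intro i j l
        by_cases hil : i = l
        · subst hil
          rw [hlev0]
          exact Nat.zero_le _
        · by_cases hij : i = j
          · subst hij
            exact le_max_right _ _
          · by_cases hjl : j = l
            · subst hjl
              exact le_max_left _ _
            · rw [hlev1 i l hil, hlev1 i j hij, hlev1 j l hjl]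
              have := hU'.ultra (p i) (p j) (p l)
              omega
      · intro i j
        by_cases h : i = j
        · subst h
          rw [hlev0]
          exact Nat.zero_le _
        · rw [hlev1 i j h]
          have := hU'.bound (p i) (p j)
          omega
    have hsmall : ∀ k < k1, ∀ A : Finset ι, kap lev k A = A.card := by
      intro k hk A
      unfold kap
      refine Finset.card_image_of_injOn ?_
      intro i _ j _ hij
      by_contra hne
      have h := (cl_eq_iff hU).mp hij
      rw [hlev1 i j hne] at h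
      omega
    have hsmall' : ∀ k < k1, ∀ A : Finset ι', kap lev' k A = A.card := by
      intro k hk A
      unfold kap
      refine Finset.card_image_of_injOn ?_
      intro i _ j _ hij
      by_contra hne
      have h := (cl_eq_iff hU').mp hij
      have h' := hk1' i j hne
      omega
    have hlarge : ∀ k, k1 ≤ k → ∀ A : Finset ι, kap lev k A = kap lev' k (A.image p) := by
      intro k hk A
      have hiff : ∀ i j, cl lev k i = cl lev k j ↔ cl lev' k (p i) = cl lev' k (p j) := by
        intro i j
        rw [cl_eq_iff hU, cl_eq_iff hU']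
        by_cases h : i = j
        · subst h
          rw [hlev0, hU'.refl]
        · rw [hlev1 i j h]
          constructor
          · intro h1
            exact (le_max_right _ _).trans h1
          · intro h1
            exact max_le hk h1
      unfold kap
      rw [Finset.image_image]
      refine le_antisymm ?_ ?_
      · exact HUnc_card_le A (cl lev' k ∘ p) (cl lev k) fun i _ j _ h => (hiff i j).mpr h
      · exact HUnc_card_le A (cl lev k) (cl lev' k ∘ p) fun i _ j _ h => (hiff i j).mp h
    have hmu : ∀ A : Finset ι, A.Nonempty → mu lev (max K' k1) ε A =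
        ε * k1 * ((A.card : ℝ) - ((A.image p).card : ℝ)) + mu lev' K' ε (A.image p) := by
      intro A hA
      rw [← mu_ext hU' (le_max_left K' k1) ε (hA.image p)]
      unfold mu
      have hs : ∑ k ∈ range (max K' k1), ((kap lev k A : ℝ) - 1) =
          ∑ k ∈ range (max K' k1), ((kap lev' k (A.image p) : ℝ) - 1) +
          ∑ k ∈ range (max K' k1),
            (if k < k1 then (A.card : ℝ) - ((A.image p).card : ℝ) else 0) := by
        rw [← Finset.sum_add_distrib]
        refine Finset.sum_congr rfl fun k _ => ?_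
        by_cases hk : k < k1
        · rw [if_pos hk, hsmall k hk, hsmall' k hk]
          ring
        · rw [if_neg hk, hlarge k (not_lt.mp hk)]
          ring
      have hs2 : ∑ k ∈ range (max K' k1),
            (if k < k1 then (A.card : ℝ) - ((A.image p).card : ℝ) else 0) =
          k1 * ((A.card : ℝ) - ((A.image p).card : ℝ)) := by
        rw [← Finset.sum_filter]
        have : (range (max K' k1)).filter (fun k => k < k1) = range k1 := by
          ext k
          simp only [Finset.mem_filter, Finset.mem_range]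
          omega
        rw [this, Finset.sum_const, Finset.card_range, nsmul_eq_mul]
      rw [hs, hs2]
      ring
    refine ⟨max K' k1, lev, hU, ?_, ?_, ?_⟩
    · intro i j hij
      rw [hlev1 i j hij]
      exact hτk.trans (le_max_left _ _)
    · intro A hA
      rw [hmu A hA]
      have h1 := hmu' (A.image p) (hA.image p)
      have h2 := HUnc_card p hpQ A
      have h1' : mu lev' K' ε (A.image p) ≤
          f (pre (A.image p)) - (if z' ∈ A.image p then f Q else 0) := h1
      by_cases hne : (A ∩ Q).Nonempty
      · rw [if_pos hne] at h2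
        have hzim : z' ∈ A.image p := by
          obtain ⟨y, hy⟩ := hne
          rw [Finset.mem_image]
          exact ⟨y, (Finset.mem_inter.mp hy).1, hpin y (Finset.mem_inter.mp hy).2⟩
        have hpre : pre (A.image p) = A ∪ Q := by
          ext i
          rw [hmem, Finset.mem_image, Finset.mem_union]
          constructor
          · rintro ⟨j, hj, hji⟩
            rcases (hpQ j i).mp hji with h | h
            · exact Or.inl (h ▸ hj)
            · exact Or.inr h.2
          · rintro (h | h)
            · exact ⟨i, h, rfl⟩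
            · obtain ⟨y, hy⟩ := hne
              exact ⟨y, (Finset.mem_inter.mp hy).1,
                (hpQ y i).mpr (Or.inr ⟨(Finset.mem_inter.mp hy).2, h⟩)⟩
        rw [if_pos hzim, hpre] at h1'
        have h3 := hsub A Q hne
        have h4 := hlow (A ∩ Q) hne
        have h5 : (1 : ℝ) ≤ ((A ∩ Q).card : ℝ) := by
          exact_mod_cast Finset.card_pos.mpr hne
        have h6 : ε * k1 * ((A.card : ℝ) - ((A.image p).card : ℝ)) ≤
            t1 * (((A ∩ Q).card : ℝ) - 1) := by
          have : (A.card : ℝ) - ((A.image p).card : ℝ) = ((A ∩ Q).card : ℝ) - 1 := by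
            rw [h2]; ring
          rw [this]
          exact mul_le_mul_of_nonneg_right hk1a (by linarith)
        linarith
      · rw [if_neg hne] at h2
        have hzim : z' ∉ A.image p := by
          rw [Finset.mem_image]
          rintro ⟨y, hy, hyz⟩
          exact hne ⟨y, Finset.mem_inter.mpr ⟨hy, (hpz' y).mp hyz⟩⟩
        have hpre : pre (A.image p) = A := by
          ext i
          rw [hmem, Finset.mem_image]
          constructor
          · rintro ⟨j, hj, hji⟩
            rcases (hpQ j i).mp hji with h | h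
            · exact h ▸ hj
            · exact absurd ⟨j, Finset.mem_inter.mpr ⟨hj, h.1⟩⟩ hne
          · intro h
            exact ⟨i, h, rfl⟩
        rw [if_neg hzim, hpre] at h1'
        have : (A.card : ℝ) - ((A.image p).card : ℝ) = 0 := by rw [h2]; ring
        rw [this]
        linarith
    · rw [hmu univ univ_nonempty]
      have him : (univ : Finset ι).image p = univ := Finset.image_univ_of_surjective hsurj
      rw [him]
      have h2 := HUnc_card p hpQ univ
      rw [him, Finset.univ_inter, if_pos ⟨z, hz⟩] at h2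
      rw [Finset.card_univ, Finset.card_univ] at h2 ⊢
      have hun2 : f (pre univ) - (if z' ∈ (univ : Finset ι') then f Q else 0) -
          ε * ((Fintype.card ι' : ℝ) - 1) ≤ mu lev' K' ε univ := hun'
      have hpreuniv : pre univ = univ := by
        ext i
        simp [pre]
      rw [if_pos (Finset.mem_univ _), hpreuniv, hfQ] at hun2
      have h3 : t1 * ((Q.card : ℝ) - 1) ≤ ε * ((k1 : ℝ) + 1) * ((Q.card : ℝ) - 1) :=
        mul_le_mul_of_nonneg_right hk1b hQ1.le
      have h4 : (Fintype.card ι : ℝ) - (Fintype.card ι' : ℝ) = (Q.card : ℝ) - 1 := by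
        rw [h2]; ring
      rw [h4]
      have h5 : (Fintype.card ι : ℝ) = (Fintype.card ι' : ℝ) + ((Q.card : ℝ) - 1) := h2
      rw [h5]
      nlinarith

theorem unc {ι : Type} [Fintype ι] [DecidableEq ι] [Nonempty ι] (f : Finset ι → ℝ)
    (h0 : ∀ i, f {i} = 0)
    (hsub : ∀ A B : Finset ι, (A ∩ B).Nonempty → f (A ∪ B) + f (A ∩ B) ≤ f A + f B) {ε : ℝ}
    (hε : 0 < ε) (τ : ℕ) (hτ : ∀ A : Finset ι, A.Nonempty → ε * τ * ((A.card : ℝ) - 1) ≤ f A) :
    ∃ (K : ℕ) (lev : ι → ι → ℕ), Ult K lev ∧ (∀ i j, i ≠ j → τ ≤ lev i j) ∧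
      (∀ A : Finset ι, A.Nonempty → mu lev K ε A ≤ f A) ∧
      f univ - ε * ((Fintype.card ι : ℝ) - 1) ≤ mu lev K ε univ :=
  HUnc_main ε hε (Fintype.card ι) ι rfl f h0 hsub τ hτ

end BcrH
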