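import Pool.Agent.Lib.BcrH.HLP
import Pool.Agent.Lib.BcrH.HUnc
import Pool.Agent.Lib.BcrH.HSub
import Pool.Agent.Lib.BcrR.RFin

/-!
The hypergraphic relaxation is at most `1 + 1/√3` times the bidirected cut relaxation.
-/

namespace BcrH

open Finset Bcr3 BcrU

theorem beta_near {p : ℕ} (hp : 3 ≤ p) : ∃ q ≤ p,
    (3 - √3) / 2 - 3 / (2 * (p : ℝ) + 1) ≤ beta (2 * p + 1) q (BcrK.th (2 * p + 1)) := by
  have h3 : (√3 : ℝ) ^ 2 = 3 := Real.sq_sqrt (by norm_num)
  have h3a : (1.7 : ℝ) < √3 := by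
    rw [show (1.7 : ℝ) = √(1.7 ^ 2) from (Real.sqrt_sq (by norm_num)).symm]
    exact Real.sqrt_lt_sqrt (by norm_num) (by norm_num)
  have h3b : (√3 : ℝ) < 2 := by
    rw [show (2 : ℝ) = √(2 ^ 2) from (Real.sqrt_sq (by norm_num)).symm]
    exact Real.sqrt_lt_sqrt (by norm_num) (by norm_num)
  obtain ⟨ρ, hρ⟩ : ∃ ρ : ℝ, ρ = (√3 - 1) / 2 := ⟨_, rfl⟩
  have hρ0 : 0 < ρ := by rw [hρ]; linarith
  have hρ1 : ρ < 1 / 2 := by rw [hρ]; linarith
  have hρ2 : ρ ^ 2 + ρ = 1 / 2 := by rw [hρ]; nlinarith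
  have hp' : (3 : ℝ) ≤ p := by exact_mod_cast hp
  obtain ⟨N, hN⟩ : ∃ N : ℝ, N = 2 * (p : ℝ) + 2 := ⟨_, rfl⟩
  have hN0 : 0 < N := by rw [hN]; linarith
  have hρN : 0 ≤ ρ * N := by positivity
  obtain ⟨q, hq⟩ : ∃ q : ℕ, q = ⌊ρ * N⌋₊ := ⟨_, rfl⟩
  have hq1 : (q : ℝ) ≤ ρ * N := by rw [hq]; exact Nat.floor_le hρN
  have hq2 : ρ * N < q + 1 := by rw [hq]; exact Nat.lt_floor_add_one _
  have hqp : q ≤ p := by
    have h4 : (q : ℝ) < (p : ℝ) + 1 := by
      calc (q : ℝ) ≤ ρ * N := hq1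
        _ < 1 / 2 * N := by nlinarith
        _ = (p : ℝ) + 1 := by rw [hN]; ring
    have h5 : q < p + 1 := by exact_mod_cast h4
    omega
  refine ⟨q, hqp, ?_⟩
  rw [BcrK.beta_th (by omega) (by omega)]
  have hβ : (3 - √3) / 2 = 1 - ρ := by rw [hρ]; ring
  rw [hβ]
  have hq0 : (0 : ℝ) ≤ q := Nat.cast_nonneg q
  have hc1 : ((2 * p + 1 : ℕ) : ℝ) = 2 * (p : ℝ) + 1 := by push_cast; ring
  rw [hc1]
  have hden : 0 < (2 * (p : ℝ) + 1) + 2 * q := by linarith
  have h6 : (1 - ρ) * ((2 * (p : ℝ) + 1) + 2 * q) - 3 ≤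
      (2 * (p : ℝ) + 1) / 2 + 2 * q - q * ((q : ℝ) + 1) / (2 * p + 1 + 1) := by
    have h7 : (q : ℝ) * ((q : ℝ) + 1) / (2 * p + 1 + 1) = (q * ((q : ℝ) + 1)) / N := by
      rw [hN]
      congr 1
      ring
    have h8 : 2 * (p : ℝ) + 1 = N - 1 := by rw [hN]; ring
    rw [h7, h8]
    have h9 : (q * ((q : ℝ) + 1)) / N ≤ (N - 1) / 2 + 2 * q - (1 - ρ) * (N - 1 + 2 * q) + 3 := by
      rw [div_le_iff₀ hN0]
      obtain ⟨d, hd⟩ : ∃ d : ℝ, d = ρ * N - q := ⟨_, rfl⟩
      have hqd : (q : ℝ) = ρ * N - d := by rw [hd]; ring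
      have hd0 : 0 ≤ d := by rw [hd]; linarith
      have hd1 : d ≤ 1 := by rw [hd]; linarith
      have h10 : ((N - 1) / 2 + 2 * (q : ℝ) - (1 - ρ) * (N - 1 + 2 * q) + 3) * N -
          (q * ((q : ℝ) + 1)) = N ^ 2 * (ρ ^ 2 + ρ - 1 / 2) + N * (7 / 2 - 2 * ρ) +
            d * (1 - d) := by
        rw [hqd]
        ring
      rw [hρ2, sub_self, mul_zero, zero_add] at h10
      have h11 : 0 ≤ N * (7 / 2 - 2 * ρ) := mul_nonneg hN0.le (by linarith)
      have h12 : 0 ≤ d * (1 - d) := mul_nonneg hd0 (by linarith)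
      linarith
    linarith
  rw [le_div_iff₀ hden]
  have h13 : 3 ≤ 3 / (2 * (p : ℝ) + 1) * ((2 * (p : ℝ) + 1) + 2 * q) := by
    rw [div_mul_eq_mul_div, le_div_iff₀ (by linarith)]
    nlinarith
  have h14 : (1 - ρ - 3 / (2 * (p : ℝ) + 1)) * ((2 * (p : ℝ) + 1) + 2 * q) =
      (1 - ρ) * ((2 * (p : ℝ) + 1) + 2 * q) -
        3 / (2 * (p : ℝ) + 1) * ((2 * (p : ℝ) + 1) + 2 * q) := by ring
  rw [h14]
  linarith

variable {V : Type} [Fintype V] [DecidableEq V] {G : SimpleGraph V} {c : Sym2 V → ℝ}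

omit [DecidableEq V] in
theorem opt_nonneg (hc : ∀ e, 0 ≤ c e) (R : Finset V) : 0 ≤ OPT G c R := by
  apply Real.sInf_nonneg
  rintro w ⟨T, _, rfl⟩
  exact Finset.sum_nonneg fun e _ => hc e

/-- every intersecting submodular function below the Steiner tree costs is bounded -/
theorem sub_bound (hc : ∀ e, 0 ≤ c e) {R : Finset V} {r : V} (hr : r ∈ R)
    (hreach : ∀ v ∈ R, G.Reachable r v) {x : V → V → ℝ} (hx : Feasible G R r x)
    (f : Finset {v // v ∈ R} → ℝ) (h0 : ∀ i, f {i} = 0)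
    (hsub : ∀ A B : Finset {v // v ∈ R}, (A ∩ B).Nonempty → f (A ∪ B) + f (A ∩ B) ≤ f A + f B)
    (hnn : ∀ A : Finset {v // v ∈ R}, A.Nonempty → 0 ≤ f A)
    (hle : ∀ A : Finset {v // v ∈ R}, A.Nonempty → f A ≤ OPT G c (A.image Subtype.val)) :
    f univ ≤ (1 + 1 / √3) * ∑ u, ∑ v, c s(u, v) * x u v := by
  have hne : Nonempty {v // v ∈ R} := ⟨⟨r, hr⟩⟩
  obtain ⟨δ, hδ, hcm⟩ := BcrR.exists_delta hc
  obtain ⟨W, hW⟩ : ∃ W : ℝ, W = ∑ u, ∑ v, c s(u, v) * x u v := ⟨_, rfl⟩
  have hW0 : 0 ≤ W := by rw [hW]; exact BcrR.val_nonneg hc hx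
  rw [← hW]
  have hcard : (Fintype.card {v // v ∈ R} : ℝ) = R.card := by
    rw [Fintype.card_coe]
  have hf0 : 0 ≤ f univ := hnn univ univ_nonempty
  -- one design
  have key : ∀ p q : ℕ, q ≤ p → beta (2 * p + 1) q (BcrK.th (2 * p + 1)) * f univ ≤ W := by
    intro p q hq
    have hb := BcrK.beta_pos (m := 2 * p + 1) (q := q) (by omega) (by omega)
    obtain ⟨b, hbd⟩ : ∃ b : ℝ, b = beta (2 * p + 1) q (BcrK.th (2 * p + 1)) := ⟨_, rfl⟩
    rw [← hbd] at hb ⊢
    obtain ⟨D, hD⟩ : ∃ D : ℝ, D = 2 * W / δ + 2 * b * R.card := ⟨_, rfl⟩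
    have hD0 : 0 ≤ D := by rw [hD]; positivity
    refine le_of_forall_pos_le_add fun η hη => ?_
    have hε : 0 < η / (D + 1) := by positivity
    obtain ⟨ε, hεd⟩ : ∃ ε : ℝ, ε = η / (D + 1) := ⟨_, rfl⟩
    rw [← hεd] at hε
    obtain ⟨K, lev, hU, -, hmu, htop⟩ := unc f h0 hsub hε 0 (by
      intro A hA
      have := hnn A hA
      simpa using this)
    have h := BcrK.tight_bound (ι := {v // v ∈ R}) (t := fun i => i.1) (i0 := ⟨r, hr⟩) hc hx
      (fun i => i.2) (fun i => hreach i.1 i.2) rfl hε (m := 2 * p + 1) (q := q) (by omega)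
      (by omega) hU
      (by
        intro S hS _ Y hY
        obtain ⟨s, hs⟩ := hS
        have h1 := hmu S ⟨s, hs⟩
        have h2 := hle S ⟨s, hs⟩
        have h3 : OPT G c (S.image Subtype.val) ≤ ec c Y := by
          refine opt_le_conn hc (r := s.1) (mem_image_of_mem _ hs) ?_
          intro v hv
          obtain ⟨i, hi, rfl⟩ := mem_image.1 hv
          exact hY s hs i hi
        linarith) hδ hcm
    rw [hcard, ← hW, ← hbd] at h
    rw [hcard] at htop
    have h4 : f univ ≤ mu lev K ε univ + ε * R.card := by linarith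
    have h5 : b * f univ ≤ b * (mu lev K ε univ - ε * R.card) + 2 * b * (ε * R.card) := by
      have := mul_le_mul_of_nonneg_left h4 hb.le
      linarith
    have h6 : ε * D ≤ η := by
      rw [hεd, div_mul_eq_mul_div, div_le_iff₀ (by linarith)]
      nlinarith
    have h7 : (1 + 2 * ε / δ) * W + 2 * b * (ε * R.card) = W + ε * D := by
      rw [hD]
      ring
    linarith
  have h3 : (0 : ℝ) < √3 := Real.sqrt_pos.mpr (by norm_num)
  have h33 : (√3 : ℝ) ^ 2 = 3 := Real.sq_sqrt (by norm_num)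
  have key2 : (3 - √3) / 2 * f univ ≤ W := by
    apply le_of_forall_pos_le_add
    intro η hη
    obtain ⟨n, hn⟩ := exists_nat_gt (3 * f univ / η)
    have hp : 3 ≤ n + 3 := by omega
    obtain ⟨q, hq, hb⟩ := beta_near hp
    have h1 := key (n + 3) q hq
    have h2 := mul_le_mul_of_nonneg_right hb hf0
    have h4 : 3 / (2 * ((n + 3 : ℕ) : ℝ) + 1) * f univ ≤ η := by
      have h5 : (0 : ℝ) < 2 * ((n + 3 : ℕ) : ℝ) + 1 := by positivity
      rw [div_mul_eq_mul_div, div_le_iff₀ h5]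
      rw [div_lt_iff₀ hη] at hn
      push_cast
      have h6 : 0 ≤ (n : ℝ) := Nat.cast_nonneg n
      nlinarith
    rw [sub_mul] at h2
    linarith
  have h7 : (1 + 1 / √3) * ((3 - √3) / 2) = 1 := by
    field_simp
    nlinarith
  calc f univ = (1 + 1 / √3) * ((3 - √3) / 2) * f univ := by rw [h7, one_mul]
    _ = (1 + 1 / √3) * ((3 - √3) / 2 * f univ) := by ring
    _ ≤ (1 + 1 / √3) * W := mul_le_mul_of_nonneg_left key2 (by positivity)

theorem hyp_le (hc : ∀ e, 0 ≤ c e) {R : Finset V} {r : V} (hr : r ∈ R)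
    (hreach : ∀ v ∈ R, G.Reachable r v) {x : V → V → ℝ} (hx : Feasible G R r x) :
    HYP G c R ≤ (1 + 1 / √3) * ∑ u, ∑ v, c s(u, v) * x u v := by
  have hRne : R.Nonempty := ⟨r, hr⟩
  refine le_of_forall_pos_le_add fun η hη => ?_
  obtain ⟨z, hz0, hz1, hz2⟩ := lp_dual (I := {π : Finpartition R // 2 ≤ π.parts.card})
    (J := {K // K ∈ R.powerset}) (fun π K => (rkp π.1 K.1 : ℝ))
    (fun π => (π.1.parts.card : ℝ) - 1) (fun K => OPT G c K.1)
    (κ := (1 + 1 / √3) * ∑ u, ∑ v, c s(u, v) * x u v)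
    (by
      intro y hy hdual
      have h := sub_bound hc hr hreach hx
        (fun A => ∑ π : {π : Finpartition R // 2 ≤ π.parts.card},
          y π * (rkp π.1 (A.image Subtype.val) : ℝ))
        (by
          intro i
          refine Finset.sum_eq_zero fun π _ => ?_
          rw [image_singleton, rkp_singleton π.1 i.2]
          simp)
        (by
          intro A B hAB
          rw [← Finset.sum_add_distrib, ← Finset.sum_add_distrib]
          refine Finset.sum_le_sum fun π _ => ?_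
          rw [← mul_add, ← mul_add]
          refine mul_le_mul_of_nonneg_left ?_ (hy π)
          have hsubR : ∀ C : Finset {v // v ∈ R}, C.image Subtype.val ⊆ R := by
            intro C v hv
            obtain ⟨i, _, rfl⟩ := mem_image.1 hv
            exact i.2
          have h1 : (A ∩ B).image Subtype.val = A.image Subtype.val ∩ B.image Subtype.val :=
            image_inter A B Subtype.val_injective
          have h2 := rkp_sub π.1 (hsubR A) (hsubR B) (by rw [← h1]; exact hAB.image _)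
          rw [image_union, h1]
          exact_mod_cast h2)
        (by
          intro A _
          exact Finset.sum_nonneg fun π _ => mul_nonneg (hy π) (Nat.cast_nonneg _))
        (by
          intro A _
          refine hdual ⟨A.image Subtype.val, ?_⟩
          rw [mem_powerset]
          intro v hv
          obtain ⟨i, _, rfl⟩ := mem_image.1 hv
          exact i.2)
      refine le_trans (le_of_eq ?_) h
      refine Finset.sum_congr rfl fun π _ => ?_
      have h1 : (univ : Finset {v // v ∈ R}).image Subtype.val = R := by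
        ext v
        simp
      show y π * ((π.1.parts.card : ℝ) - 1) = y π * (rkp π.1 (univ.image Subtype.val) : ℝ)
      rw [h1, rkp_top, Nat.cast_sub (parts_pos π.1 hRne), Nat.cast_one])
    (by
      refine ⟨fun K => if K.1 = R then 2 else 0, fun K => ?_, fun π => ?_⟩
      · show (0 : ℝ) ≤ if K.1 = R then 2 else 0
        split_ifs <;> norm_num
      · have h1 : ∑ K : {K // K ∈ R.powerset}, (if K.1 = R then (2 : ℝ) else 0) *
            (rkp π.1 K.1 : ℝ) = 2 * (rkp π.1 R : ℝ) := by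
          rw [Finset.sum_eq_single (⟨R, mem_powerset_self R⟩ : {K // K ∈ R.powerset})]
          · rw [if_pos rfl]
          · intro K _ hK
            rw [if_neg (fun h => hK (Subtype.ext h)), zero_mul]
          · intro h
            exact absurd (mem_univ _) h
        rw [h1, rkp_top, Nat.cast_sub (parts_pos π.1 hRne), Nat.cast_one]
        have h2 : (2 : ℝ) ≤ (π.1.parts.card : ℝ) := by exact_mod_cast π.2
        linarith)
    hη
  refine le_trans (csInf_le ?_ ?_) hz2
  · refine ⟨0, ?_⟩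
    rintro w ⟨y, hy, _, rfl⟩
    exact Finset.sum_nonneg fun K _ => mul_nonneg (hy K) (opt_nonneg hc K)
  · refine ⟨fun K => if h : K ∈ R.powerset then z ⟨K, h⟩ else 0, ?_, ?_, ?_⟩
    · intro K
      by_cases h : K ∈ R.powerset
      · simp only [h, dite_true]
        exact hz0 _
      · simp only [h, dite_false]
        exact le_refl _
    · intro π
      have hsum : ∑ K ∈ R.powerset, (if h : K ∈ R.powerset then z ⟨K, h⟩ else 0) *
          (rkp π K : ℝ) = ∑ K : {K // K ∈ R.powerset}, z K * (rkp π K.1 : ℝ) := by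
        rw [← Finset.sum_coe_sort R.powerset]
        refine Finset.sum_congr rfl fun K _ => ?_
        rw [dif_pos K.2]
      rw [hsum]
      by_cases h2 : 2 ≤ π.parts.card
      · exact hz1 ⟨π, h2⟩
      · have h3 : (π.parts.card : ℝ) ≤ 1 := by
          have : π.parts.card ≤ 1 := by omega
          exact_mod_cast this
        have h4 : 0 ≤ ∑ K : {K // K ∈ R.powerset}, z K * (rkp π K.1 : ℝ) :=
          Finset.sum_nonneg fun K _ => mul_nonneg (hz0 K) (Nat.cast_nonneg _)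
        linarith
    · rw [← Finset.sum_coe_sort R.powerset]
      refine Finset.sum_congr rfl fun K _ => ?_
      show z K * OPT G c K.1 =
        (if h : K.1 ∈ R.powerset then z ⟨K.1, h⟩ else 0) * OPT G c K.1
      rw [dif_pos K.2]

end BcrH
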