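import Mathlib

/-!
MODULE HLP (160 lines). Duality for a covering linear program with a strictly feasible point.

`S = {(u, w) : (I → ℝ) × ℝ | ∃ x ≥ 0, (∀ i, u i < ∑ j, x j * A i j) ∧ ∑ j, x j * c j < w}` is convex and open (finite union-free:
for fixed `x` it is open, union over `x`). Suppose no `x` as claimed exists; then `(b, κ + η) ∉ S` (otherwise this `x` works).
`geometric_hahn_banach_open_point` gives a continuous linear `f` with `f a < f (b, κ + η)` for `a ∈ S`. Write
`f (u, w) = ∑ i, p i * u i + q * w` (linear on a finite product: `p i = f (Pi.single i 1, 0)`, `q = f (0, 1)`).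
* `p i ≥ 0`: the points `(-1 - n e_i, 1)` are in `S` (`x = 0`) for all `n`; `q ≤ 0`: the points `(-1, 1 + n)` are in `S`.
* For `x ≥ 0` and `ρ > 0` the point `(A x - ρ, c x + ρ)` is in `S`; let `ρ → 0`: `∑ p i (A x) i + q (c x) ≤ ∑ p i b i + q (κ + η)`.
  With `x = n e_j` and `n → ∞`: `∑ i, p i * A i j + q c j ≤ 0`. With `x = 0`: `0 ≤ ∑ p i b i + q (κ + η)`.
* `q < 0`: if `q = 0` use the strictly feasible point `x0` (`b i < (A x0) i`): the point `(u, w)` with `u = (b + A x0)/2`, `w` large is
  in `S`, so `∑ p i u i < ∑ p i b i`, impossible as `p ≥ 0`, `u ≥ b`.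
* `y = p/(-q)` is nonnegative with `∑ y i A i j ≤ c j`, and `∑ y i b i ≥ κ + η > κ`, against `hd`.
-/

namespace BcrH

open Finset

private theorem HLP_unbdd {F a q : ℝ} (h : ∀ n : ℝ, 0 ≤ n → a + n * q < F) : q ≤ 0 := by
  by_contra hq
  push Not at hq
  have h1 := h ((|F - a| + 1) / q) (by positivity)
  rw [div_mul_cancel₀ _ hq.ne'] at h1
  have h2 := le_abs_self (F - a)
  linarith

theorem lp_dual {I J : Type} [Fintype I] [Fintype J] (A : I → J → ℝ) (b : I → ℝ) (c : J → ℝ)
    {κ : ℝ} (hd : ∀ y : I → ℝ, (∀ i, 0 ≤ y i) → (∀ j, ∑ i, y i * A i j ≤ c j) →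
      ∑ i, y i * b i ≤ κ)
    (hs : ∃ x0 : J → ℝ, (∀ j, 0 ≤ x0 j) ∧ ∀ i, b i < ∑ j, x0 j * A i j) {η : ℝ} (hη : 0 < η) :
    ∃ x : J → ℝ, (∀ j, 0 ≤ x j) ∧ (∀ i, b i ≤ ∑ j, x j * A i j) ∧
      ∑ j, x j * c j ≤ κ + η := by
  classical
  by_contra hcon
  set S : Set ((I → ℝ) × ℝ) := {z | ∃ x : J → ℝ, (∀ j, 0 ≤ x j) ∧
    (∀ i, z.1 i < ∑ j, x j * A i j) ∧ ∑ j, x j * c j < z.2} with hS
  have hconv : Convex ℝ S := by
    rintro z ⟨x, hx0, hx1, hx2⟩ z' ⟨x', hx0', hx1', hx2'⟩ s t hs0 ht0 hst
    refine ⟨fun j => s * x j + t * x' j, fun j => ?_, fun i => ?_, ?_⟩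
    · have := hx0 j
      have := hx0' j
      positivity
    · have e : ∑ j, (s * x j + t * x' j) * A i j =
          s * ∑ j, x j * A i j + t * ∑ j, x' j * A i j := by
        rw [mul_sum, mul_sum, ← sum_add_distrib]
        refine sum_congr rfl fun j _ => ?_
        ring
      have e2 : (s • z + t • z').1 i = s * z.1 i + t * z'.1 i := by simp
      rw [e, e2]
      rcases hs0.eq_or_lt with h0 | h0
      · have ht : t = 1 := by linarith
        rw [← h0, ht]
        have := hx1' i
        linarith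
      · have a1 := mul_lt_mul_of_pos_left (hx1 i) h0
        have a2 := mul_le_mul_of_nonneg_left (hx1' i).le ht0
        linarith
    · have e : ∑ j, (s * x j + t * x' j) * c j =
          s * ∑ j, x j * c j + t * ∑ j, x' j * c j := by
        rw [mul_sum, mul_sum, ← sum_add_distrib]
        refine sum_congr rfl fun j _ => ?_
        ring
      have e2 : (s • z + t • z').2 = s * z.2 + t * z'.2 := by simp
      rw [e, e2]
      rcases hs0.eq_or_lt with h0 | h0
      · have ht : t = 1 := by linarith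
        rw [← h0, ht]
        linarith
      · have a1 := mul_lt_mul_of_pos_left hx2 h0
        have a2 := mul_le_mul_of_nonneg_left hx2'.le ht0
        linarith
  have hopen : IsOpen S := by
    have e : S = ⋃ x : J → ℝ, {z : (I → ℝ) × ℝ | (∀ j, 0 ≤ x j) ∧
        (∀ i, z.1 i < ∑ j, x j * A i j) ∧ ∑ j, x j * c j < z.2} := by
      ext z
      simp [hS]
    rw [e]
    refine isOpen_iUnion fun x => ?_
    by_cases hx : ∀ j, 0 ≤ x j
    · have e1 : {z : (I → ℝ) × ℝ | (∀ j, 0 ≤ x j) ∧
          (∀ i, z.1 i < ∑ j, x j * A i j) ∧ ∑ j, x j * c j < z.2} =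
          (⋂ i, {z : (I → ℝ) × ℝ | z.1 i < ∑ j, x j * A i j}) ∩
            {z : (I → ℝ) × ℝ | ∑ j, x j * c j < z.2} := by
        ext z
        simp only [Set.mem_setOf_eq, Set.mem_inter_iff, Set.mem_iInter]
        tauto
      rw [e1]
      refine IsOpen.inter (isOpen_iInter_of_finite fun i => ?_) ?_
      · exact isOpen_lt ((continuous_apply i).comp continuous_fst) continuous_const
      · exact isOpen_lt continuous_const continuous_snd
    · have e1 : {z : (I → ℝ) × ℝ | (∀ j, 0 ≤ x j) ∧
          (∀ i, z.1 i < ∑ j, x j * A i j) ∧ ∑ j, x j * c j < z.2} = ∅ := by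
        ext z
        simp only [Set.mem_setOf_eq, Set.mem_empty_iff_false, iff_false]
        tauto
      rw [e1]
      exact isOpen_empty
  have hnot : ((b, κ + η) : (I → ℝ) × ℝ) ∉ S := by
    rintro ⟨x, hx0, hx1, hx2⟩
    exact hcon ⟨x, hx0, fun i => (hx1 i).le, hx2.le⟩
  obtain ⟨f, hf⟩ := geometric_hahn_banach_open_point hconv hopen hnot
  set p : I → ℝ := fun i => f (Pi.single i 1, 0) with hp
  set q : ℝ := f (0, 1) with hq
  have hfe : ∀ (u : I → ℝ) (w : ℝ), f (u, w) = ∑ i, u i * p i + w * q := by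
    intro u w
    have e1 : ((u, w) : (I → ℝ) × ℝ) =
        (∑ i, u i • ((Pi.single i 1, 0) : (I → ℝ) × ℝ)) + w • ((0, 1) : (I → ℝ) × ℝ) := by
      ext k
      · simp [Prod.fst_sum, Finset.sum_apply, Pi.single_apply]
      · simp [Prod.snd_sum]
    rw [e1, map_add, map_sum, map_smul, smul_eq_mul]
    congr 1
    refine sum_congr rfl fun i _ => ?_
    rw [map_smul, smul_eq_mul]
  set F : ℝ := f (b, κ + η) with hF
  have hFe : F = ∑ i, b i * p i + (κ + η) * q := hfe b (κ + η)
  have hlt : ∀ (x : J → ℝ) (u : I → ℝ) (w : ℝ), (∀ j, 0 ≤ x j) →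
      (∀ i, u i < ∑ j, x j * A i j) → ∑ j, x j * c j < w → ∑ i, u i * p i + w * q < F := by
    intro x u w h0 h1 h2
    rw [← hfe u w]
    exact hf _ ⟨x, h0, h1, h2⟩
  have hle : ∀ (x : J → ℝ), (∀ j, 0 ≤ x j) →
      ∑ i, (∑ j, x j * A i j) * p i + (∑ j, x j * c j) * q ≤ F := by
    intro x hx
    by_contra hG
    push Not at hG
    set G : ℝ := ∑ i, (∑ j, x j * A i j) * p i + (∑ j, x j * c j) * q with hGd
    set D : ℝ := ∑ i, p i - q with hD
    have hρ : 0 < (G - F) / (|D| + 1) := by
      apply div_pos (by linarith) (by positivity)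
    set ρ : ℝ := (G - F) / (|D| + 1) with hρd
    have h1 := hlt x (fun i => (∑ j, x j * A i j) - ρ) ((∑ j, x j * c j) + ρ) hx
      (fun i => by linarith) (by linarith)
    have e : ∑ i, ((∑ j, x j * A i j) - ρ) * p i + ((∑ j, x j * c j) + ρ) * q = G - ρ * D := by
      have e1 : ∑ i, ((∑ j, x j * A i j) - ρ) * p i =
          ∑ i, (∑ j, x j * A i j) * p i - ρ * ∑ i, p i := by
        rw [mul_sum, ← sum_sub_distrib]
        refine sum_congr rfl fun i _ => ?_
        ring
      rw [e1, hGd, hD]
      ring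
    rw [e] at h1
    have h2 : ρ * D ≤ ρ * |D| := mul_le_mul_of_nonneg_left (le_abs_self D) hρ.le
    have h3 : ρ * (|D| + 1) = G - F := by
      rw [hρd]
      exact div_mul_cancel₀ _ (by positivity)
    nlinarith
  have hp0 : ∀ i, 0 ≤ p i := by
    intro i
    have h1 : ∀ n : ℝ, 0 ≤ n → (∑ i, (-1 : ℝ) * p i + 1 * q) + n * (-p i) < F := by
      intro n hn
      have h2 := hlt 0 (fun k => -1 - n * (if k = i then 1 else 0)) 1 (fun j => le_rfl)
        (fun k => by
          simp only [Pi.zero_apply, zero_mul, sum_const_zero]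
          have : 0 ≤ n * (if k = i then (1 : ℝ) else 0) := by positivity
          linarith) (by simp)
      have e : ∑ k, (-1 - n * (if k = i then (1 : ℝ) else 0)) * p k =
          ∑ k, (-1 : ℝ) * p k + n * (-p i) := by
        have e1 : ∀ k, (-1 - n * (if k = i then (1 : ℝ) else 0)) * p k =
            (-1 : ℝ) * p k + (if k = i then n * (-p i) else 0) := by
          intro k
          by_cases hk : k = i
          · subst hk
            simp
            ring
          · simp [hk]
        rw [sum_congr rfl fun k _ => e1 k, sum_add_distrib]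
        simp
      rw [e] at h2
      linarith
    have := HLP_unbdd h1
    linarith
  have hq0 : q ≤ 0 := by
    have h1 : ∀ n : ℝ, 0 ≤ n → (∑ i, (-1 : ℝ) * p i + 1 * q) + n * q < F := by
      intro n hn
      have h2 := hlt 0 (fun _ => -1) (1 + n) (fun j => le_rfl)
        (fun k => by simp) (by simp; linarith)
      linarith
    exact HLP_unbdd h1
  have hcol : ∀ j, ∑ i, p i * A i j + q * c j ≤ 0 := by
    intro j
    have h1 : ∀ n : ℝ, 0 ≤ n → 0 + n * (∑ i, p i * A i j + q * c j) < F + 1 := by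
      intro n hn
      have h2 := hle (fun k => if k = j then n else 0) (fun k => by
        by_cases hk : k = j
        · simp [hk, hn]
        · simp [hk])
      have e : ∀ g : J → ℝ, ∑ k, (if k = j then n else 0) * g k = n * g j := by
        intro g
        simp [ite_mul]
      simp only [e] at h2
      have e2 : ∑ i, n * A i j * p i = n * ∑ i, p i * A i j := by
        rw [mul_sum]
        refine sum_congr rfl fun i _ => ?_
        ring
      rw [e2] at h2
      nlinarith
    exact HLP_unbdd h1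
  have hF0 : 0 ≤ F := by
    have := hle 0 (fun j => le_rfl)
    simpa using this
  have hqneg : q < 0 := by
    rcases hq0.lt_or_eq with h | h
    · exact h
    · exfalso
      obtain ⟨x0, hx0, hx1⟩ := hs
      have h2 := hlt x0 b ((∑ j, x0 j * c j) + 1) hx0 hx1 (by linarith)
      rw [hFe, h] at h2
      linarith
  have hy := hd (fun i => p i / (-q)) (fun i => div_nonneg (hp0 i) (by linarith)) (fun j => by
    have e : ∑ i, p i / (-q) * A i j = (∑ i, p i * A i j) / (-q) := by
      rw [sum_div]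
      refine sum_congr rfl fun i _ => ?_
      ring
    rw [e, div_le_iff₀ (by linarith)]
    have := hcol j
    linarith)
  have e : ∑ i, p i / (-q) * b i = (∑ i, b i * p i) / (-q) := by
    rw [sum_div]
    refine sum_congr rfl fun i _ => ?_
    ring
  rw [e, div_le_iff₀ (by linarith)] at hy
  rw [hFe] at hF0
  nlinarith

end BcrH
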