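import Pool.Agent.Lib.BcrH.HFin
import Pool.Agent.Lib.BcrU.MstLow

/-!
Instances in which a minimum spanning tree of the terminals is optimal.
-/

namespace BcrH

open Finset Bcr3 BcrU

variable {V : Type} [Fintype V] [DecidableEq V] {G : SimpleGraph V} {c : Sym2 V → ℝ}

theorem mst_eps (hc : ∀ e, 0 ≤ c e) {R : Finset V} {r : V} (hr : r ∈ R)
    (hreach : ∀ v ∈ R, G.Reachable r v) (hmst : MST G c R ≤ OPT G c R) {x : V → V → ℝ}
    (hx : Feasible G R r x) {δ : ℝ} (hδ : 0 < δ) (hcm : ∀ a, c a = 0 ∨ δ ≤ c a) {ε : ℝ}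
    (hε : 0 < ε) {m q : ℕ} (hm : 0 < m) (hq : q ≤ m) :
    beta m q (BcrK.th m) * (OPT G c R - ε * (2 * (R.card : ℝ) ^ 2 + R.card)) ≤
      (1 + 2 * ε / δ) * ∑ u, ∑ v, c s(u, v) * x u v := by
  have hne : Nonempty {v // v ∈ R} := ⟨⟨r, hr⟩⟩
  obtain ⟨K, hK0⟩ := BcrR.exists_K (κ := {v // v ∈ R}) (fun i j => dst G c i.1 j.1) hε
  have hK : ∀ i j : {v // v ∈ R}, dst G c i.1 j.1 ≤ K * ε := hK0
  clear hK0
  have hcardn : Fintype.card {v // v ∈ R} = R.card := Fintype.card_coe R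
  have hcard : (Fintype.card {v // v ∈ R} : ℝ) = R.card := by rw [hcardn]
  have hreach2 : ∀ i j : {v // v ∈ R}, G.Reachable i.1 j.1 := fun i j =>
    (hreach i.1 i.2).symm.trans (hreach j.1 j.2)
  -- distances after a purchase
  have hsymm : ∀ Y : Finset (Sym2 V), ∀ i j : {v // v ∈ R},
      DD G c (fun i : {v // v ∈ R} => i.1) Y i j = DD G c (fun i : {v // v ∈ R} => i.1) Y j i :=
    fun Y i j => dst_symm i.1 j.1
  have hDD0 : ∀ i j : {v // v ∈ R},
      DD G c (fun i : {v // v ∈ R} => i.1) ∅ i j = dst G c i.1 j.1 := by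
    intro i j
    unfold DD
    rw [cY_empty]
  have hDDle : ∀ Y : Finset (Sym2 V), ∀ i j : {v // v ∈ R},
      DD G c (fun i : {v // v ∈ R} => i.1) Y i j ≤
        DD G c (fun i : {v // v ∈ R} => i.1) ∅ i j := by
    intro Y i j
    rw [hDD0]
    exact dst_mono (cY_nonneg hc Y) hc (fun e => cY_le hc Y e) (hreach2 i j)
  have hKD : ∀ i j : {v // v ∈ R},
      DD G c (fun i : {v // v ∈ R} => i.1) ∅ i j ≤ K * ε := by
    intro i j
    rw [hDD0]
    exact hK i j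
  obtain ⟨lev0, hlev0⟩ : ∃ lev0 : {v // v ∈ R} → {v // v ∈ R} → ℕ,
      lev0 = levOf (DD G c (fun i : {v // v ∈ R} => i.1) ∅) ε := ⟨_, rfl⟩
  have hU : Ult K lev0 := by
    rw [hlev0]
    exact levOf_ult hε (hsymm ∅) hKD
  have hMM : MM G c (fun i : {v // v ∈ R} => i.1) K ε ∅ = mu lev0 K ε univ := by
    rw [hlev0]
    rfl
  have hlow := mst_low (G := G) hc hr hε hK
  have hkr : ∀ Y : Finset (Sym2 V), OPT G c R ≤ ec c Y +
      MM G c (fun i : {v // v ∈ R} => i.1) K ε Y := by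
    intro Y
    exact kruskal (t := fun i : {v // v ∈ R} => i.1) hc hr (fun v hv => ⟨⟨v, hv⟩, rfl⟩)
      (fun i => hreach i.1 i.2) hε hK Y
  have htight : ∀ S : Finset {v // v ∈ R}, S.Nonempty → ∀ Y : Finset (Sym2 V),
      (∀ i ∈ S, ∀ j ∈ S, conn G Y i.1 j.1) →
      mu lev0 K ε S ≤ ec c Y + ε * ((2 * R.card : ℕ) : ℝ) := by
    intro S hS Y hY
    obtain ⟨s, hs⟩ := hS
    have h := exch (D := DD G c (fun i : {v // v ∈ R} => i.1) ∅)
      (D' := DD G c (fun i : {v // v ∈ R} => i.1) Y) (K := K) hε (hsymm ∅) (hsymm Y) hKD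
      (hDDle Y) (S := S) ⟨s, hs⟩ (F := S.toList.map fun i => (s, i, (0 : ℝ)))
      (by
        intro i hi j hj
        have h1 : ∀ a ∈ S, ((s, a, (0 : ℝ)) : {v // v ∈ R} × {v // v ∈ R} × ℝ) ∈
            S.toList.map fun i => (s, i, (0 : ℝ)) := by
          intro a ha
          exact List.mem_map.2 ⟨a, mem_toList.2 ha, rfl⟩
        refine Relation.ReflTransGen.tail (b := s) (Relation.ReflTransGen.single ?_) ?_
        · exact ⟨_, h1 i hi, Or.inr ⟨rfl, rfl⟩⟩
        · exact ⟨_, h1 j hj, Or.inl ⟨rfl, rfl⟩⟩)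
      (by
        intro y hy
        obtain ⟨i, hi, rfl⟩ := List.mem_map.1 hy
        refine ⟨le_refl _, ?_⟩
        obtain ⟨w, hw⟩ := hY s hs i (mem_toList.1 hi)
        have h2 := dst_le (cY_nonneg hc Y) w
        rw [wc_cY_zero w hw] at h2
        exact h2)
    have hsum : ((S.toList.map fun i => (s, i, (0 : ℝ))).map fun x => x.2.2).sum = 0 := by
      rw [List.map_map]
      apply List.sum_eq_zero
      intro y hy
      obtain ⟨i, _, rfl⟩ := List.mem_map.1 hy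
      rfl
    rw [hsum, List.length_map, length_toList, ← hlev0] at h
    have h1 := hkr Y
    have h2 : (S.card : ℝ) ≤ R.card := by
      rw [← hcardn]
      exact_mod_cast card_le_univ S
    have h3 : MM G c (fun i : {v // v ∈ R} => i.1) K ε Y =
      mu (levOf (DD G c (fun i : {v // v ∈ R} => i.1) Y) ε) K ε univ := rfl
    rw [h3] at h1
    rw [hMM] at hlow
    have h4 : ε * (S.card : ℝ) ≤ ε * R.card := mul_le_mul_of_nonneg_left h2 hε.le
    push_cast
    have h5 : ε * (2 * (R.card : ℝ)) = ε * R.card + ε * R.card := by ring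
    rw [h5]
    linarith
  have hb := BcrK.beta_pos hm hq
  have h := BcrK.tight_bound (ι := {v // v ∈ R}) (t := fun i => i.1) (i0 := ⟨r, hr⟩) hc hx
    (fun i => i.2) (fun i => hreach i.1 i.2) rfl hε hm hq (shift_ult hU (2 * R.card))
    (by
      intro S hS _ Y hY
      have hec : 0 ≤ ec c Y := Finset.sum_nonneg fun e _ => hc e
      have h1 := shift_stab hU hε.le (2 * R.card) hS hec (htight S hS Y hY)
      linarith) hδ hcm
  have h1 := shift_univ hU hε.le (2 * R.card)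
  have h2 := hkr ∅
  have hec0 : ec c ∅ = 0 := by simp [ec]
  rw [hec0, zero_add, hMM] at h2
  rw [hcard] at h h1
  push_cast at h1
  refine le_trans (mul_le_mul_of_nonneg_left ?_ hb.le) h
  have h3 : ε * (2 * (R.card : ℝ) ^ 2 + R.card) =
      ε * (2 * (R.card : ℝ)) * R.card + ε * R.card := by ring
  rw [h3]
  linarith

theorem upper_mst (hc : ∀ e, 0 ≤ c e) {R : Finset V} {r : V} (hr : r ∈ R)
    (hreach : ∀ v ∈ R, G.Reachable r v) (hmst : MST G c R ≤ OPT G c R) {x : V → V → ℝ}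
    (hx : Feasible G R r x) :
    OPT G c R ≤ (1 + 1 / √3) * ∑ u, ∑ v, c s(u, v) * x u v := by
  obtain ⟨δ, hδ, hcm⟩ := BcrR.exists_delta hc
  obtain ⟨W, hW⟩ : ∃ W : ℝ, W = ∑ u, ∑ v, c s(u, v) * x u v := ⟨_, rfl⟩
  have hW0 : 0 ≤ W := by rw [hW]; exact BcrR.val_nonneg hc hx
  have h0 : 0 ≤ OPT G c R := opt_nonneg hc R
  have key : ∀ p q : ℕ, q ≤ p →
      beta (2 * p + 1) q (BcrK.th (2 * p + 1)) * OPT G c R ≤ W := by
    intro p q hq
    have hb := BcrK.beta_pos (m := 2 * p + 1) (q := q) (by omega) (by omega)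
    obtain ⟨b, hbd⟩ : ∃ b : ℝ, b = beta (2 * p + 1) q (BcrK.th (2 * p + 1)) := ⟨_, rfl⟩
    obtain ⟨D, hD⟩ : ∃ D : ℝ, D = 2 * W / δ + b * (2 * (R.card : ℝ) ^ 2 + R.card) := ⟨_, rfl⟩
    rw [← hbd] at hb ⊢
    have hD0 : 0 ≤ D := by rw [hD]; positivity
    refine le_of_forall_pos_le_add fun η hη => ?_
    obtain ⟨ε, hεd⟩ : ∃ ε : ℝ, ε = η / (D + 1) := ⟨_, rfl⟩
    have hε : 0 < ε := by rw [hεd]; positivity
    have h := mst_eps hc hr hreach hmst hx hδ hcm hε (m := 2 * p + 1) (q := q) (by omega)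
      (by omega)
    rw [← hW, ← hbd] at h
    have h6 : ε * D ≤ η := by
      rw [hεd, div_mul_eq_mul_div, div_le_iff₀ (by linarith)]
      nlinarith
    have h7 : (1 + 2 * ε / δ) * W + b * (ε * (2 * (R.card : ℝ) ^ 2 + R.card)) =
        W + ε * D := by
      rw [hD]
      ring
    have h8 : b * (OPT G c R - ε * (2 * (R.card : ℝ) ^ 2 + R.card)) =
        b * OPT G c R - b * (ε * (2 * (R.card : ℝ) ^ 2 + R.card)) := by ring
    rw [h8] at h
    linarith
  have h3 : (0 : ℝ) < √3 := Real.sqrt_pos.mpr (by norm_num)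
  have h33 : (√3 : ℝ) ^ 2 = 3 := Real.sq_sqrt (by norm_num)
  rw [← hW]
  have key2 : (3 - √3) / 2 * OPT G c R ≤ W := by
    apply le_of_forall_pos_le_add
    intro η hη
    obtain ⟨n, hn⟩ := exists_nat_gt (3 * OPT G c R / η)
    have hp : 3 ≤ n + 3 := by omega
    obtain ⟨q, hq, hb⟩ := beta_near hp
    have h1 := key (n + 3) q hq
    have h2 := mul_le_mul_of_nonneg_right hb h0
    have h4 : 3 / (2 * ((n + 3 : ℕ) : ℝ) + 1) * OPT G c R ≤ η := by
      have h5 : (0 : ℝ) < 2 * ((n + 3 : ℕ) : ℝ) + 1 := by positivity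
      rw [div_mul_eq_mul_div, div_le_iff₀ h5]
      rw [div_lt_iff₀ hη] at hn
      push_cast
      have h6 : 0 ≤ (n : ℝ) := Nat.cast_nonneg n
      nlinarith
    rw [sub_mul] at h2
    linarith
  have h7 : (1 + 1 / √3) * ((3 - √3) / 2) = 1 := by
    field_simp
    nlinarith
  calc OPT G c R = (1 + 1 / √3) * ((3 - √3) / 2) * OPT G c R := by rw [h7, one_mul]
    _ = (1 + 1 / √3) * ((3 - √3) / 2 * OPT G c R) := by ring
    _ ≤ (1 + 1 / √3) * W := mul_le_mul_of_nonneg_left key2 (by positivity)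

end BcrH
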